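import Pool.Agent.Helper889_Halv.Comb

/-! Blow-ups of planar point sets: definitions and sign lemmas. -/

set_option autoImplicit false

namespace Pool.Agent.Helper889_Blow

open Finset Filter Topology Pool.Agent.Y344.KD Pool.Agent.H189R2.Iid KLev.Halving
  Pool.Agent.Helper889_Halv

theorem exists_pert {n : ℕ} (P0 : Fin n → ℝ × ℝ)
    (hne : ∀ i j k, i ≠ j → i ≠ k → j ≠ k → ori (P0 i) (P0 j) (P0 k) ≠ 0) :
    ∃ P1 : Fin n → ℝ × ℝ, GP P1 ∧ ∀ i j k, i ≠ j → i ≠ k → j ≠ k →
        0 < ori (P0 i) (P0 j) (P0 k) * ori (P1 i) (P1 j) (P1 k) := by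
  have hU : {Q : Fin n → ℝ × ℝ | ∀ i j k, i ≠ j → i ≠ k → j ≠ k →
      0 < ori (P0 i) (P0 j) (P0 k) * ori (Q i) (Q j) (Q k)} ∈ 𝓝 P0 := by
    change ∀ᶠ Q in 𝓝 P0, ∀ i j k, i ≠ j → i ≠ k → j ≠ k →
      0 < ori (P0 i) (P0 j) (P0 k) * ori (Q i) (Q j) (Q k)
    rw [eventually_all]; intro i
    rw [eventually_all]; intro j
    rw [eventually_all]; intro k
    by_cases h : i ≠ j ∧ i ≠ k ∧ j ≠ k
    · have hc : Continuous (fun Q : Fin n → ℝ × ℝ =>
          ori (P0 i) (P0 j) (P0 k) * ori (Q i) (Q j) (Q k)) := by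
        unfold ori
        fun_prop
      have hpos : 0 < ori (P0 i) (P0 j) (P0 k) * ori (P0 i) (P0 j) (P0 k) :=
        mul_self_pos.mpr (hne i j k h.1 h.2.1 h.2.2)
      have := (hc.continuousAt (x := P0)).eventually (lt_mem_nhds hpos)
      filter_upwards [this] with Q hQ _ _ _ using hQ
    · filter_upwards with Q h1 h2 h3
      exact absurd ⟨h1, h2, h3⟩ h
  obtain ⟨P1, hP1, hGP⟩ := exists_near P0 hU
  exact ⟨P1, hGP, hP1⟩

/-- the line through `p` and `q` -/
def Thr (p q : ℝ × ℝ) : Set (ℝ × ℝ) :=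
  Line (q.2 - p.2) (p.1 - q.1) ((q.2 - p.2) * p.1 + (p.1 - q.1) * p.2)

theorem ori_swap (p q r : ℝ × ℝ) : ori q p r = - ori p q r := by unfold ori; ring

theorem ori_rot (p q r : ℝ × ℝ) : ori p r q = - ori p q r := by unfold ori; ring

theorem ori_ne {P : Finset (ℝ × ℝ)} (hP : GeneralPosition P) {p q r : ℝ × ℝ} (hp : p ∈ P)
    (hq : q ∈ P) (hr : r ∈ P) (hpq : p ≠ q) (hpr : p ≠ r) (hqr : q ≠ r) : ori p q r ≠ 0 := by
  intro h0
  refine hP (q.2 - p.2) (p.1 - q.1) ((q.2 - p.2) * p.1 + (p.1 - q.1) * p.2) ?_ p hp q hq r hr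
    hpq hpr hqr ⟨?_, ?_, ?_⟩
  · by_contra hc
    push Not at hc
    exact hpq (Prod.ext (by linarith [hc.2]) (by linarith [hc.1]))
  · simp only [Line, Set.mem_ofPred_eq]
  · simp only [Line, Set.mem_ofPred_eq]; ring
  · unfold ori at h0
    simp only [Line, Set.mem_ofPred_eq]; linarith

theorem neg_iff {t x : ℝ} (ht : 0 < t) : (t * x < 0 ↔ x < 0) ∧ (0 < t * x ↔ 0 < x) := by
  constructor
  · constructor
    · intro h
      by_contra hc
      push Not at hc
      have := mul_nonneg ht.le hc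
      linarith
    · exact fun h => mul_neg_of_pos_of_neg ht h
  · exact mul_pos_iff_of_pos_left ht

theorem neg_iff' {t x : ℝ} (ht : t < 0) : (t * x < 0 ↔ 0 < x) ∧ (0 < t * x ↔ x < 0) := by
  constructor
  · constructor
    · intro h
      by_contra hc
      push Not at hc
      have := mul_nonneg_of_nonpos_of_nonpos ht.le hc
      linarith
    · exact fun h => mul_neg_of_neg_of_pos ht h
  · constructor
    · intro h
      by_contra hc
      push Not at hc
      have := mul_nonpos_of_nonpos_of_nonneg ht.le hc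
      linarith
    · exact fun h => mul_pos_of_neg_of_neg ht h

open Classical in
/-- a bisector in terms of orientations -/
theorem bis_ori {P : Finset (ℝ × ℝ)} {L : Set (ℝ × ℝ)} (h : IsBisector P L) :
    ∃ p ∈ P, ∃ q ∈ P, p ≠ q ∧ L = Thr p q ∧
      (P.filter (fun r => ori p q r < 0)).card = (P.filter (fun r => 0 < ori p q r)).card := by
  obtain ⟨a, b, c, hab, rfl, ⟨p, hp, q, hq, hpq, hpL, hqL⟩, hlt, hgt⟩ := h
  refine ⟨p, hp, q, hq, hpq, line_eq hab hpq hpL hqL, ?_⟩
  obtain ⟨t, ht, hr⟩ := lin_ori hab hpq hpL hqL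
  have e1 : ∀ r : ℝ × ℝ, (a * r.1 + b * r.2 < c ↔ t * ori p q r < 0) := by
    intro r
    rw [← hr]
    constructor <;> intro h <;> linarith
  have e2 : ∀ r : ℝ × ℝ, (c < a * r.1 + b * r.2 ↔ 0 < t * ori p q r) := by
    intro r
    rw [← hr]
    constructor <;> intro h <;> linarith
  simp only [e1] at hlt
  simp only [e2] at hgt
  rcases lt_or_gt_of_ne ht with h | h
  · have g := fun r : ℝ × ℝ => neg_iff' (x := ori p q r) h
    simp only [(g _).1] at hlt
    simp only [(g _).2] at hgt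
    rw [hlt, hgt]
  · have g := fun r : ℝ × ℝ => neg_iff (x := ori p q r) h
    simp only [(g _).1] at hlt
    simp only [(g _).2] at hgt
    rw [hlt, hgt]

open Classical in
theorem ori_bis {P : Finset (ℝ × ℝ)} {p q : ℝ × ℝ} (hp : p ∈ P) (hq : q ∈ P) (hpq : p ≠ q)
    (h1 : (P.filter (fun r => ori p q r < 0)).card = P.card / 2 - 1)
    (h2 : (P.filter (fun r => 0 < ori p q r)).card = P.card / 2 - 1) :
    IsBisector P (Thr p q) := by
  refine ⟨_, _, _, ?_, rfl, ⟨p, hp, q, hq, hpq, ?_, ?_⟩, ?_, ?_⟩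
  · by_contra hc
    push Not at hc
    exact hpq (Prod.ext (by linarith [hc.2]) (by linarith [hc.1]))
  · simp only [Thr, Line, Set.mem_ofPred_eq]
  · simp only [Thr, Line, Set.mem_ofPred_eq]; ring
  · rw [← h1]
    congr 1
    ext r
    simp only [mem_filter]
    constructor
    · rintro ⟨h, h'⟩
      exact ⟨h, by unfold ori; linarith⟩
    · rintro ⟨h, h'⟩
      exact ⟨h, by unfold ori at h'; linarith⟩
  · rw [← h2]
    congr 1
    ext r
    simp only [mem_filter]
    constructor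
    · rintro ⟨h, h'⟩
      exact ⟨h, by unfold ori; linarith⟩
    · rintro ⟨h, h'⟩
      exact ⟨h, by unfold ori at h'; linarith⟩

/-- Plücker relation -/
theorem plucker (p w a b c : ℝ × ℝ) :
    ori p w b * ori p a c = ori p w a * ori p b c + ori p w c * ori p a b := by
  unfold ori; ring

theorem ori_trans {p w a b c : ℝ × ℝ} (h1 : 0 < ori p w a * ori p w b)
    (h2 : 0 < ori p w c * ori p w b) (hab : ori p a b < 0) (hbc : ori p b c < 0) :
    ori p a c < 0 := by
  have h := plucker p w a b c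
  have hb : ori p w b ≠ 0 := by
    rintro h0
    rw [h0, mul_zero] at h1
    exact lt_irrefl _ h1
  have hb2 : 0 < ori p w b * ori p w b := mul_self_pos.mpr hb
  have e : (ori p w b * ori p w b) * ori p a c =
      (ori p w a * ori p w b) * ori p b c + (ori p w c * ori p w b) * ori p a b := by
    linear_combination (ori p w b) * h
  have h3 : (ori p w a * ori p w b) * ori p b c < 0 := mul_neg_of_pos_of_neg h1 hbc
  have h4 : (ori p w c * ori p w b) * ori p a b < 0 := mul_neg_of_pos_of_neg h2 hab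
  exact (neg_iff hb2).1.mp (by linarith)

end Pool.Agent.Helper889_Blow
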