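import Pool.Agent.Helper889_Blow.Main

/-! Blow-ups with an even number of clusters. -/

set_option autoImplicit false

namespace Pool.Agent.Helper889_Blow

open Finset Pool.Agent.Y344.KD Pool.Agent.H189R2.Iid KLev.Halving Pool.Agent.Helper889_Halv

variable {N t : ℕ} {C : Fin N → Finset (ℝ × ℝ)} {P : Finset (ℝ × ℝ)}

open Classical in
/-- with an even number of clusters no bisector joins two points of the same cluster -/
theorem inner_even (hP : GeneralPosition P) (hB : IsBlowup C t P) (hN : Even N) {i : Fin N}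
    {p q : ℝ × ℝ} (hp : p ∈ C i) (hq : q ∈ C i) (hpq : p ≠ q)
    (hbal : (P.filter (fun r => ori p q r < 0)).card =
      (P.filter (fun r => 0 < ori p q r)).card) : False := by
  have ht : 1 < t := by
    rw [← hB.card i]
    exact one_lt_card.mpr ⟨p, hp, q, hq, hpq⟩
  have hself := sides_card (S := C i) (p := p) (q := q) (E := {p, q})
    (by
      intro r hr
      rw [mem_insert, mem_singleton] at hr
      rcases hr with rfl | rfl
      · exact hp
      · exact hq)
    (by
      intro r hr
      rw [mem_insert, mem_singleton] at hr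
      rcases hr with rfl | rfl
      · exact ori_left _ _
      · exact ori_right _ _)
    (by
      intro r hr hrE
      rw [mem_insert, mem_singleton] at hrE
      push Not at hrE
      exact ori_ne hP (hB.sub i hp) (hB.sub i hq) (hB.sub i hr) hpq hrE.1.symm hrE.2.symm)
  rw [card_pair hpq, hB.card i] at hself
  rw [hB.filter_card, hB.filter_card] at hbal
  set A : Finset (Fin N) := univ.filter (fun l => l ≠ i ∧ ∀ r ∈ C l, ori p q r < 0) with hA
  set A' : Finset (Fin N) := univ.filter (fun l => l ≠ i ∧ ∀ r ∈ C l, 0 < ori p q r) with hA'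
  have hne : ∀ l, (C l).Nonempty := fun l => by
    rw [← card_pos, hB.card]
    omega
  have hside : ∀ l, l ≠ i → (∀ r ∈ C l, ori p q r < 0) ∨ (∀ r ∈ C l, 0 < ori p q r) := by
    intro l hl
    obtain ⟨r0, hr0⟩ := hne l
    rcases lt_or_ge (ori p q r0) 0 with h0 | h0
    · left
      intro r hr
      have := hB.two i l hl.symm p hp q hq hpq r hr r0 hr0
      by_contra hc
      push Not at hc
      have := mul_nonpos_of_nonneg_of_nonpos hc h0.le
      linarith
    · right
      intro r hr
      have := hB.two i l hl.symm p hp q hq hpq r hr r0 hr0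
      by_contra hc
      push Not at hc
      have := mul_nonpos_of_nonpos_of_nonneg hc h0
      linarith
  have e1 : ∀ l, ((C l).filter (fun r => ori p q r < 0)).card = (if l ∈ A then t else 0) +
      (if l = i then ((C i).filter (fun r => ori p q r < 0)).card else 0) := by
    intro l
    by_cases hl : l = i
    · rw [hl, if_neg (by simp [hA]), if_pos rfl, zero_add]
    · rw [if_neg hl, add_zero]
      rcases hside l hl with h | h
      · rw [if_pos (by rw [hA, mem_filter]; exact ⟨mem_univ _, hl, h⟩), filter_true_of_mem h,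
          hB.card]
      · rw [if_neg, card_eq_zero, filter_eq_empty_iff]
        · intro r hr
          linarith [h r hr]
        · rw [hA, mem_filter]
          rintro ⟨-, -, h'⟩
          obtain ⟨r0, hr0⟩ := hne l
          linarith [h r0 hr0, h' r0 hr0]
  have e2 : ∀ l, ((C l).filter (fun r => 0 < ori p q r)).card = (if l ∈ A' then t else 0) +
      (if l = i then ((C i).filter (fun r => 0 < ori p q r)).card else 0) := by
    intro l
    by_cases hl : l = i
    · rw [hl, if_neg (by simp [hA']), if_pos rfl, zero_add]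
    · rw [if_neg hl, add_zero]
      rcases hside l hl with h | h
      · rw [if_neg, card_eq_zero, filter_eq_empty_iff]
        · intro r hr
          linarith [h r hr]
        · rw [hA', mem_filter]
          rintro ⟨-, -, h'⟩
          obtain ⟨r0, hr0⟩ := hne l
          linarith [h r0 hr0, h' r0 hr0]
      · rw [if_pos (by rw [hA', mem_filter]; exact ⟨mem_univ _, hl, h⟩), filter_true_of_mem h,
          hB.card]
  rw [sum_congr rfl (fun l _ => e1 l), sum_congr rfl (fun l _ => e2 l), sum_add_distrib,
    sum_add_distrib, sum_ite_eq', sum_ite_eq', if_pos (mem_univ _), if_pos (mem_univ _),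
    ← sum_filter, ← sum_filter, sum_const, sum_const, smul_eq_mul, smul_eq_mul] at hbal
  have f1 : univ.filter (fun l => l ∈ A) = A := by ext l; simp
  have f2 : univ.filter (fun l => l ∈ A') = A' := by ext l; simp
  rw [f1, f2] at hbal
  have hcard : A.card + A'.card + 1 = N := by
    have hd : Disjoint A A' := by
      rw [disjoint_left]
      intro l h1 h2
      rw [hA, mem_filter] at h1
      rw [hA', mem_filter] at h2
      obtain ⟨r0, hr0⟩ := hne l
      linarith [h1.2.2 r0 hr0, h2.2.2 r0 hr0]
    have hu : A ∪ A' = univ.erase i := by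
      ext l
      rw [mem_union, hA, hA', mem_filter, mem_filter, mem_erase]
      constructor
      · rintro (h | h)
        · exact ⟨h.2.1, mem_univ _⟩
        · exact ⟨h.2.1, mem_univ _⟩
      · rintro ⟨h, -⟩
        rcases hside l h with h' | h'
        · exact Or.inl ⟨mem_univ _, h, h'⟩
        · exact Or.inr ⟨mem_univ _, h, h'⟩
    have hN0 : 0 < N := i.pos
    rw [← card_union_of_disjoint hd, hu, card_erase_of_mem (mem_univ _), card_univ,
      Fintype.card_fin]
    omega
  obtain ⟨α, hα⟩ : ∃ α, α = ((C i).filter (fun r => ori p q r < 0)).card := ⟨_, rfl⟩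
  obtain ⟨β, hβ⟩ : ∃ β, β = ((C i).filter (fun r => 0 < ori p q r)).card := ⟨_, rfl⟩
  rw [← hα, ← hβ] at hbal hself
  have hαβ : α = β := by
    have h1 : (A.card * t + α) % t = (A'.card * t + β) % t := by rw [hbal]
    rw [Nat.mul_add_mod_self_right, Nat.mul_add_mod_self_right, Nat.mod_eq_of_lt (by omega),
      Nat.mod_eq_of_lt (by omega)] at h1
    exact h1
  have hAA : A.card = A'.card := by
    have h1 : A.card * t = A'.card * t := by omega
    exact Nat.eq_of_mul_eq_mul_right (by omega) h1
  obtain ⟨k, hk⟩ := hN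
  omega

open Classical in
theorem blowup_count_even (hP : GeneralPosition P) (hB : IsBlowup C t P) (hN : Even N)
    {P1 : Fin N → ℝ × ℝ}
    (hsgn : ∀ i j l, i ≠ j → i ≠ l → j ≠ l → ∀ x ∈ C i, ∀ y ∈ C j, ∀ z ∈ C l,
      0 < ori x y z * ori (P1 i) (P1 j) (P1 l)) (hGP : GP P1) :
    {L | IsBisector P L}.ncard ≤ (EW P1 (Wn N 1)).card * t := by
  set Ψ : Fin N × Fin N → ℝ × ℝ → Set (ℝ × ℝ) := fun e p =>
    if h : ∃ q ∈ C e.2, (P.filter (fun r => ori p q r < 0)).card =
      (P.filter (fun r => 0 < ori p q r)).card then Thr p h.choose else ∅ with hΨ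
  set F2 : Finset (Set (ℝ × ℝ)) :=
    (EW P1 (Wn N 1)).biUnion (fun e => (C e.1).image (fun p => Ψ e p)) with hF2
  have key : ∀ i j p q, p ∈ C i → q ∈ C j → (P1 j).1 < (P1 i).1 →
      (P.filter (fun r => ori p q r < 0)).card = (P.filter (fun r => 0 < ori p q r)).card →
      Thr p q ∈ F2 := by
    intro i j p q hp hq hlt hbal
    have hex : ∃ q ∈ C j, (P.filter (fun r => ori p q r < 0)).card =
      (P.filter (fun r => 0 < ori p q r)).card := ⟨q, hq, hbal⟩
    have hu := second_unique hP hB hsgn hGP hlt hp hq hex.choose_spec.1 hbal hex.choose_spec.2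
    rw [hF2, mem_biUnion]
    refine ⟨(i, j), pair_mem hP hB hsgn hGP hlt hp hq hbal, ?_⟩
    rw [mem_image]
    refine ⟨p, hp, ?_⟩
    simp only [hΨ]
    rw [dif_pos hex, ← hu]
  have hsub : {L | IsBisector P L} ⊆ (F2 : Set (Set (ℝ × ℝ))) := by
    intro L hL
    obtain ⟨p, hp, q, hq, hpq, rfl, hbal⟩ := bis_ori hL
    rw [mem_coe]
    obtain ⟨i, hi⟩ := (hB.union p).mp hp
    obtain ⟨j, hj⟩ := (hB.union q).mp hq
    by_cases hij : i = j
    · subst hij
      exact (inner_even hP hB hN hi hj hpq hbal).elim
    · rcases lt_trichotomy (P1 i).1 (P1 j).1 with h | h | h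
      · rw [Thr_symm]
        exact key j i q p hj hi h (bal_swap hbal)
      · exact absurd (hGP.1 i j h) hij
      · exact key i j p q hi hj h hbal
  have h1 : {L | IsBisector P L}.ncard ≤ F2.card := by
    rw [← Set.ncard_coe_finset]
    exact Set.ncard_le_ncard hsub (Finset.finite_toSet _)
  have h3 : F2.card ≤ (EW P1 (Wn N 1)).card * t := by
    refine card_biUnion_le.trans ?_
    calc ∑ e ∈ EW P1 (Wn N 1), ((C e.1).image (fun p => Ψ e p)).card ≤
          ∑ _e ∈ EW P1 (Wn N 1), t :=
          sum_le_sum (fun e _ => card_image_le.trans (hB.card e.1).le)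
      _ = _ := by rw [sum_const, smul_eq_mul]
  exact h1.trans h3

theorem mem_Thr {p q r : ℝ × ℝ} : r ∈ Thr p q ↔ ori p q r = 0 := by
  simp only [Thr, Line, Set.mem_ofPred_eq]
  unfold ori
  constructor <;> intro h <;> linarith

open Classical in
/-- halving pairs of the model are bisectors of the transversal -/
theorem pairs_le {q P1 : Fin N → ℝ × ℝ} (hN : Even N) (hinj : Function.Injective q)
    (hne : ∀ i j k, i ≠ j → i ≠ k → j ≠ k → ori (q i) (q j) (q k) ≠ 0) (hGP : GP P1)
    (hs : ∀ i j k, i ≠ j → i ≠ k → j ≠ k →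
        0 < ori (q i) (q j) (q k) * ori (P1 i) (P1 j) (P1 k)) :
    (EW P1 (Wn N 1)).card ≤ {L | IsBisector (univ.image q) L}.ncard := by
  have hQc : (univ.image q).card = N := by
    rw [card_image_of_injective _ hinj, card_univ, Fintype.card_fin]
  have hinjOn : Set.InjOn (fun e : Fin N × Fin N => Thr (q e.1) (q e.2))
      (EW P1 (Wn N 1) : Set (Fin N × Fin N)) := by
    rintro ⟨i, j⟩ h1 ⟨k, l⟩ h2 heq
    rw [mem_coe] at h1 h2
    unfold EW at h1 h2
    rw [mem_filter, mem_T] at h1 h2
    simp only at heq h1 h2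
    have hkl : k ≠ l := by
      rintro rfl
      exact lt_irrefl _ h2.1
    have m1 : q i ∈ Thr (q k) (q l) := by
      rw [← heq, mem_Thr]; exact ori_left _ _
    have m2 : q j ∈ Thr (q k) (q l) := by
      rw [← heq, mem_Thr]; exact ori_right _ _
    rw [mem_Thr] at m1 m2
    have c1 : i = k ∨ i = l := by
      by_contra hc
      push Not at hc
      exact hne k l i hkl hc.1.symm hc.2.symm m1
    have c2 : j = k ∨ j = l := by
      by_contra hc
      push Not at hc
      exact hne k l j hkl hc.1.symm hc.2.symm m2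
    rcases c1 with rfl | rfl <;> rcases c2 with rfl | rfl
    · exact absurd h1.1 (lt_irrefl _)
    · rfl
    · exact absurd (h1.1.trans h2.1) (lt_irrefl _)
    · exact absurd h1.1 (lt_irrefl _)
  have hsub : (((EW P1 (Wn N 1)).image (fun e => Thr (q e.1) (q e.2)) :
      Finset (Set (ℝ × ℝ))) : Set (Set (ℝ × ℝ))) ⊆ {L | IsBisector (univ.image q) L} := by
    intro L hL
    rw [mem_coe, mem_image] at hL
    obtain ⟨⟨i, j⟩, he, rfl⟩ := hL
    unfold EW at he
    rw [mem_filter, mem_T] at he
    obtain ⟨hij, hlev⟩ := he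
    have hc := low_high_card hGP (q := (i, j)) hij
    rw [lev_eq] at hlev
    unfold Wn at hlev
    rw [mem_filter, mem_range] at hlev
    simp only at hij
    have hne' : i ≠ j := by
      rintro rfl
      exact lt_irrefl _ hij
    obtain ⟨k, hk⟩ := hN
    have hsgn : ∀ l, (ori (q i) (q j) (q l) < 0 ↔ l ∈ lowSet P1 (i, j)) ∧
        (0 < ori (q i) (q j) (q l) ↔ l ∈ highSet P1 (i, j)) := by
      intro l
      rw [mem_low (q := (i, j)) hij, mem_high]
      simp only
      by_cases h1 : i = l
      · subst h1
        simp [ori_left]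
      by_cases h2 : j = l
      · subst h2
        simp [ori_right]
      rcases pos_and_pos_or_neg_and_neg_of_mul_pos (hs i j l hne' h1 h2) with ⟨h3, h4⟩ | ⟨h3, h4⟩
      · exact ⟨⟨fun h => by linarith, fun h => by linarith⟩, ⟨fun _ => h4, fun _ => h3⟩⟩
      · exact ⟨⟨fun _ => h4, fun _ => h3⟩, ⟨fun h => by linarith, fun h => by linarith⟩⟩
    have f1 : univ.filter (fun l => ori (q i) (q j) (q l) < 0) = lowSet P1 (i, j) := by
      ext l
      rw [mem_filter, (hsgn l).1]
      simp
    have f2 : univ.filter (fun l => 0 < ori (q i) (q j) (q l)) = highSet P1 (i, j) := by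
      ext l
      rw [mem_filter, (hsgn l).2]
      simp
    apply ori_bis (mem_image_of_mem _ (mem_univ _)) (mem_image_of_mem _ (mem_univ _))
      (hinj.ne hne')
    · rw [filter_image, card_image_of_injective _ hinj, hQc, f1]
      omega
    · rw [filter_image, card_image_of_injective _ hinj, hQc, f2]
      omega
  have h1 := Set.ncard_le_ncard hsub (bisectors_finite _)
  rw [Set.ncard_coe_finset, card_image_of_injOn hinjOn] at h1
  exact h1

open Classical in
/-- **Blow-ups with an even number of clusters** -/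
theorem blowup_even (hP : GeneralPosition P) (hB : IsBlowup C t P) (hN : Even N)
    (q : Fin N → ℝ × ℝ) (hq : ∀ i, q i ∈ C i) :
    {L | IsBisector P L}.ncard ≤ t * {L | IsBisector (univ.image q) L}.ncard := by
  have hne2 : ∀ i j, i ≠ j → q i ≠ q j := by
    intro i j hij h
    have := hq i
    rw [h] at this
    exact disjoint_left.mp (hB.disj i j hij) this (hq j)
  have hinj : Function.Injective q := by
    intro i j h
    by_contra hc
    exact hne2 i j hc h
  have hne : ∀ i j k, i ≠ j → i ≠ k → j ≠ k → ori (q i) (q j) (q k) ≠ 0 :=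
    fun i j k hij hik hjk =>
    ori_ne hP (hB.sub i (hq i)) (hB.sub j (hq j)) (hB.sub k (hq k)) (hne2 i j hij)
      (hne2 i k hik) (hne2 j k hjk)
  obtain ⟨P1, hGP, hs⟩ := exists_pert q hne
  have hsgn : ∀ i j l, i ≠ j → i ≠ l → j ≠ l → ∀ x ∈ C i, ∀ y ∈ C j, ∀ z ∈ C l,
      0 < ori x y z * ori (P1 i) (P1 j) (P1 l) := by
    intro i j l hij hil hjl x hx y hy z hz
    have h1 := hB.three i j l hij hil hjl x hx (q i) (hq i) y hy (q j) (hq j) z hz (q l)
      (hq l)
    have h2 := hs i j l hij hil hjl
    have h3 := mul_pos h1 h2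
    have h4 : (ori x y z * ori (q i) (q j) (q l)) *
        (ori (q i) (q j) (q l) * ori (P1 i) (P1 j) (P1 l)) =
        (ori (q i) (q j) (q l) * ori (q i) (q j) (q l)) *
          (ori x y z * ori (P1 i) (P1 j) (P1 l)) := by ring
    rw [h4] at h3
    by_contra hc
    push Not at hc
    have := mul_nonpos_of_nonneg_of_nonpos (mul_self_nonneg (ori (q i) (q j) (q l))) hc
    linarith
  have h1 := blowup_count_even hP hB hN hsgn hGP
  have h2 := pairs_le hN hinj hne hGP hs
  calc {L | IsBisector P L}.ncard ≤ (EW P1 (Wn N 1)).card * t := h1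
    _ ≤ {L | IsBisector (univ.image q) L}.ncard * t := Nat.mul_le_mul_right _ h2
    _ = _ := mul_comm _ _

end Pool.Agent.Helper889_Blow
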