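import Pool.Agent.Helper889_Blow.Step

/-! The number of bisectors of blow-ups and of iterated blow-ups. -/

set_option autoImplicit false

namespace Pool.Agent.Helper889_Blow

open Finset Pool.Agent.Y344.KD Pool.Agent.H189R2.Iid KLev.Halving Pool.Agent.Helper889_Halv

variable {N t : ℕ} {C : Fin N → Finset (ℝ × ℝ)} {P : Finset (ℝ × ℝ)}

theorem IsBlowup.card_eq (hB : IsBlowup C t P) : P.card = N * t := by
  classical
  have e : P = univ.biUnion C := by
    ext p
    simp only [mem_biUnion, mem_univ, true_and, hB.union p]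
  rw [e, card_biUnion (fun i _ j _ hij => hB.disj i j hij), sum_congr rfl (fun i _ => hB.card i),
    sum_const, card_univ, Fintype.card_fin, smul_eq_mul]

theorem Thr_symm (p q : ℝ × ℝ) : Thr p q = Thr q p := by
  ext r
  simp only [Thr, Line, Set.mem_ofPred_eq]
  constructor <;> intro h <;> linarith

open Classical in
theorem bal_swap {p q : ℝ × ℝ}
    (h : (P.filter (fun r => ori p q r < 0)).card = (P.filter (fun r => 0 < ori p q r)).card) :
    (P.filter (fun r => ori q p r < 0)).card = (P.filter (fun r => 0 < ori q p r)).card := by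
  have e1 : ∀ r, (ori q p r < 0 ↔ 0 < ori p q r) := by
    intro r
    rw [ori_swap p q r]
    constructor <;> intro h <;> linarith
  have e2 : ∀ r, (0 < ori q p r ↔ ori p q r < 0) := by
    intro r
    rw [ori_swap p q r]
    constructor <;> intro h <;> linarith
  simp only [e1, e2]
  exact h.symm

open Classical in
theorem pair_mem (hP : GeneralPosition P) (hB : IsBlowup C t P) {P1 : Fin N → ℝ × ℝ}
    (hsgn : ∀ i j l, i ≠ j → i ≠ l → j ≠ l → ∀ x ∈ C i, ∀ y ∈ C j, ∀ z ∈ C l,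
      0 < ori x y z * ori (P1 i) (P1 j) (P1 l)) (hGP : GP P1)
    {i j : Fin N} (hij : (P1 j).1 < (P1 i).1) {p q : ℝ × ℝ} (hp : p ∈ C i) (hq : q ∈ C j)
    (hbal : (P.filter (fun r => ori p q r < 0)).card =
      (P.filter (fun r => 0 < ori p q r)).card) : (i, j) ∈ EW P1 (Wn N 1) := by
  have hne : i ≠ j := by
    rintro rfl
    exact lt_irrefl _ hij
  obtain ⟨a1, a2⟩ := cross_counts hP hB hsgn hGP hij hp hq
  obtain ⟨d0, d1⟩ := own_side hP hB hne hp hq
  have hc := low_high_card hGP (q := (i, j)) hij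
  rw [a1, a2] at hbal
  obtain ⟨x, hx⟩ : ∃ x, x = (lowSet P1 (i, j)).card := ⟨_, rfl⟩
  obtain ⟨y, hy⟩ : ∃ y, y = (highSet P1 (i, j)).card := ⟨_, rfl⟩
  rw [← hx, ← hy] at hbal hc
  have h1 : y ≤ x + 1 := by
    by_contra h
    push Not at h
    have := Nat.mul_le_mul_right t (show x + 2 ≤ y by omega)
    rw [add_mul] at this
    omega
  have h2 : x ≤ y + 1 := by
    by_contra h
    push Not at h
    have := Nat.mul_le_mul_right t (show y + 2 ≤ x by omega)
    rw [add_mul] at this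
    omega
  unfold EW
  rw [mem_filter, mem_T]
  refine ⟨hij, ?_⟩
  rw [lev_eq, ← hx]
  unfold Wn
  rw [mem_filter, mem_range]
  omega

open Classical in
theorem blowup_count (hP : GeneralPosition P) (hB : IsBlowup C t P) {P1 : Fin N → ℝ × ℝ}
    (hsgn : ∀ i j l, i ≠ j → i ≠ l → j ≠ l → ∀ x ∈ C i, ∀ y ∈ C j, ∀ z ∈ C l,
      0 < ori x y z * ori (P1 i) (P1 j) (P1 l)) (hGP : GP P1) :
    {L | IsBisector P L}.ncard ≤ ∑ i, {L | IsBisector (C i) L}.ncard +
      (EW P1 (Wn N 1)).card * t := by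
  set Ψ : Fin N × Fin N → ℝ × ℝ → Set (ℝ × ℝ) := fun e p =>
    if h : ∃ q ∈ C e.2, (P.filter (fun r => ori p q r < 0)).card =
      (P.filter (fun r => 0 < ori p q r)).card then Thr p h.choose else ∅ with hΨ
  set F2 : Finset (Set (ℝ × ℝ)) :=
    (EW P1 (Wn N 1)).biUnion (fun e => (C e.1).image (fun p => Ψ e p)) with hF2
  set F1 : Finset (Set (ℝ × ℝ)) :=
    univ.biUnion (fun i => (bisectors_finite (C i)).toFinset) with hF1
  have key : ∀ i j p q, p ∈ C i → q ∈ C j → (P1 j).1 < (P1 i).1 →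
      (P.filter (fun r => ori p q r < 0)).card = (P.filter (fun r => 0 < ori p q r)).card →
      Thr p q ∈ F2 := by
    intro i j p q hp hq hlt hbal
    have hex : ∃ q ∈ C j, (P.filter (fun r => ori p q r < 0)).card =
      (P.filter (fun r => 0 < ori p q r)).card := ⟨q, hq, hbal⟩
    have hu := second_unique hP hB hsgn hGP hlt hp hq hex.choose_spec.1 hbal hex.choose_spec.2
    rw [hF2, mem_biUnion]
    refine ⟨(i, j), pair_mem hP hB hsgn hGP hlt hp hq hbal, ?_⟩
    rw [mem_image]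
    refine ⟨p, hp, ?_⟩
    simp only [hΨ]
    rw [dif_pos hex, ← hu]
  have hsub : {L | IsBisector P L} ⊆ ((F1 ∪ F2 : Finset (Set (ℝ × ℝ))) : Set (Set (ℝ × ℝ))) := by
    intro L hL
    obtain ⟨p, hp, q, hq, hpq, rfl, hbal⟩ := bis_ori hL
    rw [mem_coe, mem_union]
    obtain ⟨i, hi⟩ := (hB.union p).mp hp
    obtain ⟨j, hj⟩ := (hB.union q).mp hq
    by_cases hij : i = j
    · subst hij
      left
      rw [hF1, mem_biUnion]
      refine ⟨i, mem_univ _, ?_⟩
      rw [Set.Finite.mem_toFinset]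
      exact inner hP hB hi hj hpq hbal
    · right
      rcases lt_trichotomy (P1 i).1 (P1 j).1 with h | h | h
      · rw [Thr_symm]
        exact key j i q p hj hi h (bal_swap hbal)
      · exact absurd (hGP.1 i j h) hij
      · exact key i j p q hi hj h hbal
  have h1 : {L | IsBisector P L}.ncard ≤ (F1 ∪ F2).card := by
    rw [← Set.ncard_coe_finset]
    exact Set.ncard_le_ncard hsub (Finset.finite_toSet _)
  have h2 : F1.card ≤ ∑ i, {L | IsBisector (C i) L}.ncard := by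
    refine card_biUnion_le.trans (le_of_eq ?_)
    apply sum_congr rfl
    intro i _
    rw [Set.ncard_eq_toFinset_card _ (bisectors_finite (C i))]
  have h3 : F2.card ≤ (EW P1 (Wn N 1)).card * t := by
    refine card_biUnion_le.trans ?_
    calc ∑ e ∈ EW P1 (Wn N 1), ((C e.1).image (fun p => Ψ e p)).card ≤
          ∑ _e ∈ EW P1 (Wn N 1), t :=
          sum_le_sum (fun e _ => card_image_le.trans (hB.card e.1).le)
      _ = _ := by rw [sum_const, smul_eq_mul]
  exact h1.trans ((card_union_le _ _).trans (Nat.add_le_add h2 h3))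

/-- **Blow-ups.** -/
theorem blowup_bound (hP : GeneralPosition P) (hB : IsBlowup C t P) :
    (({L | IsBisector P L}.ncard : ℕ) : ℝ) ≤
      ∑ i, (({L | IsBisector (C i) L}.ncard : ℕ) : ℝ) + 29 * (N : ℝ) ^ (4 / 3 : ℝ) * t := by
  have hcard := hB.card_eq
  have hs0 : 0 ≤ ∑ i, (({L | IsBisector (C i) L}.ncard : ℕ) : ℝ) :=
    sum_nonneg (fun _ _ => Nat.cast_nonneg _)
  rcases Nat.eq_zero_or_pos (N * t) with h0 | h0
  · have h1 := bisectors_ncard_le P
    rw [hcard, h0, mul_zero] at h1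
    have h2 : {L | IsBisector P L}.ncard = 0 := Nat.le_zero.mp h1
    rw [h2, Nat.cast_zero]
    have : 0 ≤ 29 * (N : ℝ) ^ (4 / 3 : ℝ) * t := by positivity
    linarith
  have hN : 0 < N := Nat.pos_of_mul_pos_right h0
  have ht : 0 < t := Nat.pos_of_mul_pos_left h0
  have hne : ∀ i, (C i).Nonempty := fun i => by
    rw [← card_pos, hB.card]
    exact ht
  choose P0 hP0 using hne
  have hne2 : ∀ i j, i ≠ j → P0 i ≠ P0 j := by
    intro i j hij h
    have := hP0 i
    rw [h] at this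
    exact disjoint_left.mp (hB.disj i j hij) this (hP0 j)
  obtain ⟨P1, hGP, hs⟩ := exists_pert P0 (fun i j k hij hik hjk =>
    ori_ne hP (hB.sub i (hP0 i)) (hB.sub j (hP0 j)) (hB.sub k (hP0 k)) (hne2 i j hij)
      (hne2 i k hik) (hne2 j k hjk))
  have hsgn : ∀ i j l, i ≠ j → i ≠ l → j ≠ l → ∀ x ∈ C i, ∀ y ∈ C j, ∀ z ∈ C l,
      0 < ori x y z * ori (P1 i) (P1 j) (P1 l) := by
    intro i j l hij hil hjl x hx y hy z hz
    have h1 := hB.three i j l hij hil hjl x hx (P0 i) (hP0 i) y hy (P0 j) (hP0 j) z hz (P0 l)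
      (hP0 l)
    have h2 := hs i j l hij hil hjl
    have h3 := mul_pos h1 h2
    have h4 : (ori x y z * ori (P0 i) (P0 j) (P0 l)) *
        (ori (P0 i) (P0 j) (P0 l) * ori (P1 i) (P1 j) (P1 l)) =
        (ori (P0 i) (P0 j) (P0 l) * ori (P0 i) (P0 j) (P0 l)) *
          (ori x y z * ori (P1 i) (P1 j) (P1 l)) := by ring
    rw [h4] at h3
    by_contra hc
    push Not at hc
    have := mul_nonpos_of_nonneg_of_nonpos (mul_self_nonneg (ori (P0 i) (P0 j) (P0 l))) hc
    linarith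
  have hmain := blowup_count hP hB hsgn hGP
  have hw := window hGP (Wn N 1) (K := N - 1) (by
    intro k hk
    unfold Wn at hk
    rw [mem_filter, mem_range] at hk
    omega)
  have hn1 : (((N - 1 : ℕ) : ℝ) + 1) = N := by
    have : N - 1 + 1 = N := by omega
    exact_mod_cast this
  rw [hn1] at hw
  have hN0 : (0 : ℝ) < N := by exact_mod_cast hN
  have hc2 : ((Wn N 1).card : ℝ) ^ (2 / 3 : ℝ) ≤ 1.6 := by
    have h1 : ((Wn N 1).card : ℝ) ≤ 2 := by exact_mod_cast Wn_card N 1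
    calc ((Wn N 1).card : ℝ) ^ (2 / 3 : ℝ) ≤ 2 ^ (2 / 3 : ℝ) :=
          Real.rpow_le_rpow (Nat.cast_nonneg _) h1 (by norm_num)
      _ = (4 : ℝ) ^ (1 / 3 : ℝ) := by
          rw [show (4 : ℝ) = 2 ^ (2 : ℝ) by norm_num, ← Real.rpow_mul (by norm_num)]
          norm_num
      _ ≤ 1.6 := by
          rw [show (1 / 3 : ℝ) = (3 : ℝ)⁻¹ by norm_num, Real.rpow_inv_le_iff_of_pos (by norm_num)
            (by norm_num) (by norm_num)]
          norm_num
  have e1 : (N : ℝ) * (N : ℝ) ^ (1 / 3 : ℝ) = (N : ℝ) ^ (4 / 3 : ℝ) := by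
    nth_rewrite 1 [← Real.rpow_one (N : ℝ)]
    rw [← Real.rpow_add hN0]
    norm_num
  have hw2 : ((EW P1 (Wn N 1)).card : ℝ) ≤ 29 * (N : ℝ) ^ (4 / 3 : ℝ) := by
    rw [← e1]
    refine hw.trans ?_
    calc 18 * (N : ℝ) * ((N : ℝ) ^ (1 / 3 : ℝ) * ((Wn N 1).card : ℝ) ^ (2 / 3 : ℝ)) ≤
          18 * (N : ℝ) * ((N : ℝ) ^ (1 / 3 : ℝ) * 1.6) := by gcongr
      _ = 28.8 * ((N : ℝ) * (N : ℝ) ^ (1 / 3 : ℝ)) := by ring
      _ ≤ _ := by
          have : 0 ≤ (N : ℝ) * (N : ℝ) ^ (1 / 3 : ℝ) := by positivity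
          linarith
  have hmain' : (({L | IsBisector P L}.ncard : ℕ) : ℝ) ≤
      ∑ i, (({L | IsBisector (C i) L}.ncard : ℕ) : ℝ) + ((EW P1 (Wn N 1)).card : ℝ) * t := by
    exact_mod_cast hmain
  refine hmain'.trans ?_
  gcongr

/-- iterated blow-ups; the list contains the numbers of clusters, the coarsest first -/
def Hier : List ℕ → Finset (ℝ × ℝ) → Prop
  | [], P => P.card = 1
  | N :: l, P => ∃ C : Fin N → Finset (ℝ × ℝ), IsBlowup C l.prod P ∧ ∀ i, Hier l (C i)

theorem gp_mono' {P Q : Finset (ℝ × ℝ)} (hP : GeneralPosition P) (h : Q ⊆ P) :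
    GeneralPosition Q :=
  fun a b c hab p hp q hq r hr => hP a b c hab p (h hp) q (h hq) r (h hr)

theorem Hier.card_eq : ∀ (l : List ℕ) (P : Finset (ℝ × ℝ)), Hier l P → P.card = l.prod
  | [], P, h => by simpa [Hier] using h
  | N :: l, P, h => by
    obtain ⟨C, hB, -⟩ := h
    rw [hB.card_eq, List.prod_cons]

/-- **Iterated blow-ups.** -/
theorem hier_bound : ∀ (l : List ℕ) (P : Finset (ℝ × ℝ)), GeneralPosition P → Hier l P →
    (({L | IsBisector P L}.ncard : ℕ) : ℝ) ≤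
      29 * P.card * (l.map (fun N : ℕ => (N : ℝ) ^ (1 / 3 : ℝ))).sum := by
  intro l
  induction l with
  | nil =>
    intro P hP h
    have h1 : {L | IsBisector P L} = ∅ := by
      ext L
      simp only [Set.mem_ofPred_eq, Set.mem_empty_iff_false, iff_false]
      rintro ⟨a, b, c, -, -, ⟨p, hp, q, hq, hpq, -⟩, -⟩
      have hc : P.card ≤ 1 := by
        have : P.card = 1 := h
        omega
      exact hpq (card_le_one.mp hc p hp q hq)
    rw [h1, Set.ncard_empty]
    simp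
  | cons N l ih =>
    intro P hP h
    have hc := Hier.card_eq (N :: l) P h
    obtain ⟨C, hB, hC⟩ := h
    have h1 := blowup_bound hP hB
    set S := (l.map (fun N : ℕ => (N : ℝ) ^ (1 / 3 : ℝ))).sum with hS
    have h2 : ∑ i, (({L | IsBisector (C i) L}.ncard : ℕ) : ℝ) ≤ N * (29 * (l.prod : ℝ) * S) := by
      calc ∑ i, (({L | IsBisector (C i) L}.ncard : ℕ) : ℝ) ≤
            ∑ _i : Fin N, 29 * (l.prod : ℝ) * S := by
            apply sum_le_sum
            intro i _
            have := ih (C i) (gp_mono' hP (hB.sub i)) (hC i)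
            rw [hB.card i] at this
            exact this
        _ = _ := by rw [sum_const, card_univ, Fintype.card_fin, nsmul_eq_mul]
    have e1 : (N : ℝ) * (N : ℝ) ^ (1 / 3 : ℝ) = (N : ℝ) ^ (4 / 3 : ℝ) := by
      rcases Nat.eq_zero_or_pos N with h0 | h0
      · rw [h0, Nat.cast_zero, zero_mul, Real.zero_rpow (by norm_num)]
      · nth_rewrite 1 [← Real.rpow_one (N : ℝ)]
        rw [← Real.rpow_add (by exact_mod_cast h0)]
        norm_num
    rw [hc, List.prod_cons, List.map_cons, List.sum_cons, ← hS, Nat.cast_mul]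
    calc (({L | IsBisector P L}.ncard : ℕ) : ℝ) ≤
          N * (29 * (l.prod : ℝ) * S) + 29 * (N : ℝ) ^ (4 / 3 : ℝ) * (l.prod : ℕ) := by linarith
      _ = 29 * ((N : ℝ) * (l.prod : ℝ)) * ((N : ℝ) ^ (1 / 3 : ℝ) + S) := by
          rw [← e1]; ring

/-- iterated blow-ups with bounded numbers of clusters -/
theorem hier_log {B : ℕ} (l : List ℕ) (hl : ∀ N ∈ l, 2 ≤ N ∧ N ≤ B) (P : Finset (ℝ × ℝ))
    (hP : GeneralPosition P) (h : Hier l P) :
    (({L | IsBisector P L}.ncard : ℕ) : ℝ) ≤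
      29 * (B : ℝ) ^ (1 / 3 : ℝ) * P.card * (Nat.log 2 P.card : ℕ) := by
  have h1 := hier_bound l P hP h
  have hc := Hier.card_eq l P h
  have hS : ∀ l : List ℕ, (∀ N ∈ l, 2 ≤ N ∧ N ≤ B) →
      (l.map (fun N : ℕ => (N : ℝ) ^ (1 / 3 : ℝ))).sum ≤ l.length * (B : ℝ) ^ (1 / 3 : ℝ) ∧
      2 ^ l.length ≤ l.prod := by
    intro l
    induction l with
    | nil => intro _; simp
    | cons N l ih =>
      intro hl
      obtain ⟨i1, i2⟩ := ih (fun M hM => hl M (List.mem_cons_of_mem _ hM))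
      obtain ⟨h2, h3⟩ := hl N List.mem_cons_self
      constructor
      · rw [List.map_cons, List.sum_cons, List.length_cons]
        have h4 : (N : ℝ) ^ (1 / 3 : ℝ) ≤ (B : ℝ) ^ (1 / 3 : ℝ) :=
          Real.rpow_le_rpow (Nat.cast_nonneg _) (by exact_mod_cast h3) (by norm_num)
        push_cast
        linarith
      · rw [List.length_cons, List.prod_cons, pow_succ, mul_comm]
        exact Nat.mul_le_mul h2 i2
  obtain ⟨h2, h3⟩ := hS l hl
  have h4 : l.length ≤ Nat.log 2 P.card := by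
    rw [hc]
    apply Nat.le_log_of_pow_le (by norm_num) h3
  have h5 : (l.length : ℝ) ≤ (Nat.log 2 P.card : ℕ) := by exact_mod_cast h4
  refine h1.trans ?_
  calc 29 * (P.card : ℝ) * (l.map (fun N : ℕ => (N : ℝ) ^ (1 / 3 : ℝ))).sum ≤
        29 * (P.card : ℝ) * (l.length * (B : ℝ) ^ (1 / 3 : ℝ)) := by gcongr
    _ ≤ 29 * (P.card : ℝ) * ((Nat.log 2 P.card : ℕ) * (B : ℝ) ^ (1 / 3 : ℝ)) := by gcongr
    _ = _ := by ring

end Pool.Agent.Helper889_Blow
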