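import Pool.Agent.Helper889_Blow.Basic

/-! The number of bisectors of a blow-up. -/

set_option autoImplicit false

namespace Pool.Agent.Helper889_Blow

open Finset Pool.Agent.Y344.KD Pool.Agent.H189R2.Iid KLev.Halving Pool.Agent.Helper889_Halv

/-- `P` is a blow-up with the clusters `C 0, ..., C (N - 1)` of `t` points each: `P` is the disjoint
union of the clusters, the orientation of a triple of points of three different clusters depends
only on the clusters, and all points of a cluster are strictly on the same side of every line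
through two points of another cluster. -/
structure IsBlowup {N : ℕ} (C : Fin N → Finset (ℝ × ℝ)) (t : ℕ) (P : Finset (ℝ × ℝ)) : Prop where
  card : ∀ i, (C i).card = t
  disj : ∀ i j, i ≠ j → Disjoint (C i) (C j)
  union : ∀ p, p ∈ P ↔ ∃ i, p ∈ C i
  three : ∀ i j l, i ≠ j → i ≠ l → j ≠ l → ∀ x ∈ C i, ∀ x' ∈ C i, ∀ y ∈ C j, ∀ y' ∈ C j,
    ∀ z ∈ C l, ∀ z' ∈ C l, 0 < ori x y z * ori x' y' z'
  two : ∀ i j, i ≠ j → ∀ x ∈ C i, ∀ x' ∈ C i, x ≠ x' → ∀ y ∈ C j, ∀ y' ∈ C j,
    0 < ori x x' y * ori x x' y'

variable {N t : ℕ} {C : Fin N → Finset (ℝ × ℝ)} {P : Finset (ℝ × ℝ)}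

theorem IsBlowup.sub (hB : IsBlowup C t P) (i : Fin N) : C i ⊆ P := fun p hp =>
  (hB.union p).mpr ⟨i, hp⟩

open Classical in
theorem IsBlowup.filter_card (hB : IsBlowup C t P) (f : ℝ × ℝ → Prop) :
    (P.filter f).card = ∑ i, ((C i).filter f).card := by
  have e : P.filter f = univ.biUnion (fun i => (C i).filter f) := by
    ext p
    simp only [mem_filter, mem_biUnion, mem_univ, true_and, hB.union p]
    constructor
    · rintro ⟨⟨i, hi⟩, h⟩
      exact ⟨i, hi, h⟩
    · rintro ⟨i, hi, h⟩
      exact ⟨⟨i, hi⟩, h⟩
  rw [e, card_biUnion]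
  intro i _ j _ hij
  exact disjoint_of_subset_left (filter_subset _ _)
    (disjoint_of_subset_right (filter_subset _ _) (hB.disj i j hij))

open Classical in
theorem sides_card {S : Finset (ℝ × ℝ)} {p q : ℝ × ℝ} {E : Finset (ℝ × ℝ)} (hE : E ⊆ S)
    (h0 : ∀ r ∈ E, ori p q r = 0) (h1 : ∀ r ∈ S, r ∉ E → ori p q r ≠ 0) :
    (S.filter (fun r => ori p q r < 0)).card + (S.filter (fun r => 0 < ori p q r)).card +
      E.card = S.card := by
  have e : S.filter (fun r => ori p q r < 0) ∪ S.filter (fun r => 0 < ori p q r) = S \ E := by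
    ext r
    simp only [mem_union, mem_filter, mem_sdiff]
    constructor
    · rintro (⟨h, h'⟩ | ⟨h, h'⟩)
      · exact ⟨h, fun hr => by rw [h0 r hr] at h'; exact lt_irrefl _ h'⟩
      · exact ⟨h, fun hr => by rw [h0 r hr] at h'; exact lt_irrefl _ h'⟩
    · rintro ⟨h, h'⟩
      rcases lt_or_gt_of_ne (h1 r h h') with h2 | h2
      · exact Or.inl ⟨h, h2⟩
      · exact Or.inr ⟨h, h2⟩
  have hd : Disjoint (S.filter (fun r => ori p q r < 0)) (S.filter (fun r => 0 < ori p q r)) := by
    rw [disjoint_left]
    intro r hr hr'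
    rw [mem_filter] at hr hr'
    linarith [hr.2, hr'.2]
  rw [← card_union_of_disjoint hd, e, card_sdiff_of_subset hE]
  have := card_le_card hE
  omega

open Classical in
/-- all points of a cluster on one side -/
theorem one_side {S : Finset (ℝ × ℝ)} {p q : ℝ × ℝ}
    (h : ∀ r ∈ S, ∀ r' ∈ S, 0 < ori p q r * ori p q r') :
    ((S.filter (fun r => ori p q r < 0)).card = S.card ∧
      (S.filter (fun r => 0 < ori p q r)).card = 0) ∨
    ((S.filter (fun r => ori p q r < 0)).card = 0 ∧
      (S.filter (fun r => 0 < ori p q r)).card = S.card) := by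
  rcases S.eq_empty_or_nonempty with rfl | ⟨r0, hr0⟩
  · simp
  rcases lt_or_ge (ori p q r0) 0 with h0 | h0
  · left
    have hall : ∀ r ∈ S, ori p q r < 0 := by
      intro r hr
      by_contra hc
      push Not at hc
      have := h r hr r0 hr0
      have := mul_nonpos_of_nonneg_of_nonpos hc h0.le
      linarith
    refine ⟨by rw [filter_true_of_mem hall], ?_⟩
    rw [card_eq_zero, filter_eq_empty_iff]
    intro r hr
    linarith [hall r hr]
  · right
    have hall : ∀ r ∈ S, 0 < ori p q r := by
      intro r hr
      by_contra hc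
      push Not at hc
      have := h r hr r0 hr0
      have := mul_nonpos_of_nonpos_of_nonneg hc h0
      linarith
    refine ⟨?_, by rw [filter_true_of_mem hall]⟩
    rw [card_eq_zero, filter_eq_empty_iff]
    intro r hr
    linarith [hall r hr]

open Classical in
/-- a bisector through two points of one cluster bisects the cluster -/
theorem inner (hP : GeneralPosition P) (hB : IsBlowup C t P) {i : Fin N} {p q : ℝ × ℝ}
    (hp : p ∈ C i) (hq : q ∈ C i) (hpq : p ≠ q)
    (hbal : (P.filter (fun r => ori p q r < 0)).card =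
      (P.filter (fun r => 0 < ori p q r)).card) : IsBisector (C i) (Thr p q) := by
  rw [hB.filter_card, hB.filter_card] at hbal
  have hside : ∀ l, l ≠ i → (((C l).filter (fun r => ori p q r < 0)).card = t ∧
      ((C l).filter (fun r => 0 < ori p q r)).card = 0) ∨
      (((C l).filter (fun r => ori p q r < 0)).card = 0 ∧
      ((C l).filter (fun r => 0 < ori p q r)).card = t) := by
    intro l hl
    have := one_side (S := C l) (p := p) (q := q)
      (fun r hr r' hr' => hB.two i l hl.symm p hp q hq hpq r hr r' hr')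
    rwa [hB.card l] at this
  have hdvd : t ∣ ∑ l ∈ univ.erase i, ((C l).filter (fun r => ori p q r < 0)).card := by
    apply dvd_sum
    intro l hl
    rcases hside l (mem_erase.mp hl).1 with h | h
    · rw [h.1]
    · rw [h.1]; exact dvd_zero t
  have hdvd' : t ∣ ∑ l ∈ univ.erase i, ((C l).filter (fun r => 0 < ori p q r)).card := by
    apply dvd_sum
    intro l hl
    rcases hside l (mem_erase.mp hl).1 with h | h
    · rw [h.2]; exact dvd_zero t
    · rw [h.2]
  rw [← add_sum_erase univ (fun l => ((C l).filter (fun r => ori p q r < 0)).card) (mem_univ i),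
    ← add_sum_erase univ (fun l => ((C l).filter (fun r => 0 < ori p q r)).card)
      (mem_univ i)] at hbal
  have hself := sides_card (S := C i) (p := p) (q := q) (E := {p, q})
    (by
      intro r hr
      rw [mem_insert, mem_singleton] at hr
      rcases hr with rfl | rfl
      · exact hp
      · exact hq)
    (by
      intro r hr
      rw [mem_insert, mem_singleton] at hr
      rcases hr with rfl | rfl
      · exact ori_left _ _
      · exact ori_right _ _)
    (by
      intro r hr hrE
      rw [mem_insert, mem_singleton] at hrE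
      push Not at hrE
      exact ori_ne hP (hB.sub i hp) (hB.sub i hq) (hB.sub i hr) hpq hrE.1.symm hrE.2.symm)
  rw [card_pair hpq, hB.card i] at hself
  obtain ⟨x, hx⟩ := hdvd
  obtain ⟨y, hy⟩ := hdvd'
  simp only [hx, hy] at hbal
  obtain ⟨α, hα⟩ : ∃ α, α = ((C i).filter (fun r => ori p q r < 0)).card := ⟨_, rfl⟩
  obtain ⟨β, hβ⟩ : ∃ β, β = ((C i).filter (fun r => 0 < ori p q r)).card := ⟨_, rfl⟩
  rw [← hα, ← hβ] at hbal hself
  have hαβ : α = β := by
    have h1 : (α + t * x) % t = (β + t * y) % t := by rw [hbal]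
    rw [Nat.add_mul_mod_self_left, Nat.add_mul_mod_self_left, Nat.mod_eq_of_lt (by omega),
      Nat.mod_eq_of_lt (by omega)] at h1
    exact h1
  apply ori_bis hp hq hpq
  · rw [← hα, hB.card]
    omega
  · rw [← hβ, hB.card]
    omega

open Classical in
/-- the counts for a line through two clusters -/
theorem cross_counts (_hP : GeneralPosition P) (hB : IsBlowup C t P) {P1 : Fin N → ℝ × ℝ}
    (hsgn : ∀ i j l, i ≠ j → i ≠ l → j ≠ l → ∀ x ∈ C i, ∀ y ∈ C j, ∀ z ∈ C l,
      0 < ori x y z * ori (P1 i) (P1 j) (P1 l)) (_hGP : GP P1)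
    {i j : Fin N} (hij : (P1 j).1 < (P1 i).1) {p q : ℝ × ℝ} (hp : p ∈ C i) (hq : q ∈ C j) :
    (P.filter (fun r => ori p q r < 0)).card = (lowSet P1 (i, j)).card * t +
      ((C i).filter (fun r => ori p q r < 0)).card +
      ((C j).filter (fun r => ori p q r < 0)).card ∧
    (P.filter (fun r => 0 < ori p q r)).card = (highSet P1 (i, j)).card * t +
      ((C i).filter (fun r => 0 < ori p q r)).card +
      ((C j).filter (fun r => 0 < ori p q r)).card := by
  have hne : i ≠ j := by
    rintro rfl
    exact lt_irrefl _ hij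
  have hil : i ∉ lowSet P1 (i, j) := by
    rw [mem_low (q := (i, j)) hij, ori_left]
    exact lt_irrefl _
  have hjl : j ∉ lowSet P1 (i, j) := by
    rw [mem_low (q := (i, j)) hij, ori_right]
    exact lt_irrefl _
  have hih : i ∉ highSet P1 (i, j) := by
    rw [mem_high, ori_left]
    exact lt_irrefl _
  have hjh : j ∉ highSet P1 (i, j) := by
    rw [mem_high, ori_right]
    exact lt_irrefl _
  have hside : ∀ l, l ≠ i → l ≠ j → ∀ z ∈ C l,
      ((ori p q z < 0 ↔ l ∈ lowSet P1 (i, j)) ∧ (0 < ori p q z ↔ l ∈ highSet P1 (i, j))) := by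
    intro l hli hlj z hz
    have h := hsgn i j l hne hli.symm hlj.symm p hp q hq z hz
    rw [mem_low (q := (i, j)) hij, mem_high]
    simp only
    rcases pos_and_pos_or_neg_and_neg_of_mul_pos h with ⟨h3, h4⟩ | ⟨h3, h4⟩
    · exact ⟨⟨fun h => by linarith, fun h => by linarith⟩, ⟨fun _ => h4, fun _ => h3⟩⟩
    · exact ⟨⟨fun _ => h4, fun _ => h3⟩, ⟨fun h => by linarith, fun h => by linarith⟩⟩
  constructor
  · rw [hB.filter_card]
    have e : ∀ l, ((C l).filter (fun r => ori p q r < 0)).card =
        (if l ∈ lowSet P1 (i, j) then t else 0) +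
        (if l = i then ((C i).filter (fun r => ori p q r < 0)).card else 0) +
        (if l = j then ((C j).filter (fun r => ori p q r < 0)).card else 0) := by
      intro l
      by_cases h1 : l = i
      · rw [h1, if_neg hil, if_pos rfl, if_neg hne]; ring
      by_cases h2 : l = j
      · rw [h2, if_neg hjl, if_pos rfl, if_neg hne.symm]; ring
      rw [if_neg h1, if_neg h2, add_zero, add_zero]
      split_ifs with h3
      · rw [filter_true_of_mem (fun z hz => (hside l h1 h2 z hz).1.mpr h3), hB.card]
      · rw [card_eq_zero, filter_eq_empty_iff]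
        intro z hz h4
        exact h3 ((hside l h1 h2 z hz).1.mp h4)
    rw [sum_congr rfl (fun l _ => e l), sum_add_distrib, sum_add_distrib, sum_ite_eq', sum_ite_eq',
      if_pos (mem_univ _), if_pos (mem_univ _), ← sum_filter, sum_const, smul_eq_mul]
    congr 4
    ext l
    simp
  · rw [hB.filter_card]
    have e : ∀ l, ((C l).filter (fun r => 0 < ori p q r)).card =
        (if l ∈ highSet P1 (i, j) then t else 0) +
        (if l = i then ((C i).filter (fun r => 0 < ori p q r)).card else 0) +
        (if l = j then ((C j).filter (fun r => 0 < ori p q r)).card else 0) := by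
      intro l
      by_cases h1 : l = i
      · rw [h1, if_neg hih, if_pos rfl, if_neg hne]; ring
      by_cases h2 : l = j
      · rw [h2, if_neg hjh, if_pos rfl, if_neg hne.symm]; ring
      rw [if_neg h1, if_neg h2, add_zero, add_zero]
      split_ifs with h3
      · rw [filter_true_of_mem (fun z hz => (hside l h1 h2 z hz).2.mpr h3), hB.card]
      · rw [card_eq_zero, filter_eq_empty_iff]
        intro z hz h4
        exact h3 ((hside l h1 h2 z hz).2.mp h4)
    rw [sum_congr rfl (fun l _ => e l), sum_add_distrib, sum_add_distrib, sum_ite_eq', sum_ite_eq',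
      if_pos (mem_univ _), if_pos (mem_univ _), ← sum_filter, sum_const, smul_eq_mul]
    congr 4
    ext l
    simp

open Classical in
/-- the two sides within one of the two clusters of a line -/
theorem own_side (hP : GeneralPosition P) (hB : IsBlowup C t P) {i j : Fin N} (hij : i ≠ j)
    {p q : ℝ × ℝ} (hp : p ∈ C i) (hq : q ∈ C j) :
    ((C i).filter (fun r => ori p q r < 0)).card + ((C i).filter (fun r => 0 < ori p q r)).card +
      1 = t ∧
    ((C j).filter (fun r => ori p q r < 0)).card + ((C j).filter (fun r => 0 < ori p q r)).card +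
      1 = t := by
  have hpq : p ≠ q := by
    rintro rfl
    exact disjoint_left.mp (hB.disj i j hij) hp hq
  constructor
  · have := sides_card (S := C i) (p := p) (q := q) (E := {p})
      (by intro r hr; rw [mem_singleton] at hr; rw [hr]; exact hp)
      (by intro r hr; rw [mem_singleton] at hr; rw [hr]; exact ori_left _ _)
      (by
        intro r hr hrE
        rw [mem_singleton] at hrE
        refine ori_ne hP (hB.sub i hp) (hB.sub j hq) (hB.sub i hr) hpq (Ne.symm hrE) ?_
        rintro rfl
        exact disjoint_left.mp (hB.disj i j hij) hr hq)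
    rwa [card_singleton, hB.card] at this
  · have := sides_card (S := C j) (p := p) (q := q) (E := {q})
      (by intro r hr; rw [mem_singleton] at hr; rw [hr]; exact hq)
      (by intro r hr; rw [mem_singleton] at hr; rw [hr]; exact ori_right _ _)
      (by
        intro r hr hrE
        rw [mem_singleton] at hrE
        refine ori_ne hP (hB.sub i hp) (hB.sub j hq) (hB.sub j hr) hpq ?_ (Ne.symm hrE)
        rintro rfl
        exact disjoint_left.mp (hB.disj i j hij) hp hr)
    rwa [card_singleton, hB.card] at this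

open Classical in
/-- the second point of a bisector through two clusters is determined by the first -/
theorem second_unique (hP : GeneralPosition P) (hB : IsBlowup C t P) {P1 : Fin N → ℝ × ℝ}
    (hsgn : ∀ i j l, i ≠ j → i ≠ l → j ≠ l → ∀ x ∈ C i, ∀ y ∈ C j, ∀ z ∈ C l,
      0 < ori x y z * ori (P1 i) (P1 j) (P1 l)) (hGP : GP P1)
    {i j : Fin N} (hij : (P1 j).1 < (P1 i).1) {p q q' : ℝ × ℝ} (hp : p ∈ C i) (hq : q ∈ C j)
    (hq' : q' ∈ C j)
    (hbal : (P.filter (fun r => ori p q r < 0)).card = (P.filter (fun r => 0 < ori p q r)).card)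
    (hbal' : (P.filter (fun r => ori p q' r < 0)).card =
      (P.filter (fun r => 0 < ori p q' r)).card) : q = q' := by
  have hne : i ≠ j := by
    rintro rfl
    exact lt_irrefl _ hij
  by_contra hqq
  have ht : 1 < (C i).card := by
    rw [hB.card i, ← hB.card j]
    exact one_lt_card.mpr ⟨q, hq, q', hq', hqq⟩
  obtain ⟨w, hw, hwp⟩ := exists_mem_ne ht p
  have hcone := hB.two i j hne p hp w hw hwp.symm
  -- the same counts in the cluster `i`
  have hi1 : ∀ r, r ∈ C i → (ori p q r < 0 ↔ ori p q' r < 0) ∧
      (0 < ori p q r ↔ 0 < ori p q' r) := by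
    intro r hr
    by_cases hrp : p = r
    · rw [← hrp, ori_left, ori_left]
      simp
    · have h := hB.two i j hne p hp r hr hrp q hq q' hq'
      rw [ori_rot p q r, ori_rot p q' r] at h
      rcases pos_and_pos_or_neg_and_neg_of_mul_pos h with ⟨h3, h4⟩ | ⟨h3, h4⟩
      · exact ⟨⟨fun _ => by linarith, fun _ => by linarith⟩,
          ⟨fun _ => by linarith, fun _ => by linarith⟩⟩
      · exact ⟨⟨fun _ => by linarith, fun _ => by linarith⟩,
          ⟨fun _ => by linarith, fun _ => by linarith⟩⟩
  have c1 : ((C i).filter (fun r => ori p q r < 0)).card =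
      ((C i).filter (fun r => ori p q' r < 0)).card := by
    congr 1
    exact filter_congr (fun r hr => (hi1 r hr).1)
  have c2 : ((C i).filter (fun r => 0 < ori p q r)).card =
      ((C i).filter (fun r => 0 < ori p q' r)).card := by
    congr 1
    exact filter_congr (fun r hr => (hi1 r hr).2)
  obtain ⟨a1, a2⟩ := cross_counts hP hB hsgn hGP hij hp hq
  obtain ⟨b1, b2⟩ := cross_counts hP hB hsgn hGP hij hp hq'
  obtain ⟨-, d1⟩ := own_side hP hB hne hp hq
  obtain ⟨-, d2⟩ := own_side hP hB hne hp hq'
  have hcard : ((C j).filter (fun r => ori p q r < 0)).card =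
      ((C j).filter (fun r => ori p q' r < 0)).card := by
    rw [a1, a2] at hbal
    rw [b1, b2] at hbal'
    omega
  -- strict inclusion
  have key : ∀ q q' : ℝ × ℝ, q ∈ C j → q' ∈ C j → ori p q q' < 0 →
      ((C j).filter (fun r => ori p q' r < 0)).card <
        ((C j).filter (fun r => ori p q r < 0)).card := by
    intro q q' hq hq' h
    apply card_lt_card
    rw [ssubset_iff_of_subset]
    · refine ⟨q', ?_, ?_⟩
      · rw [mem_filter]
        exact ⟨hq', h⟩
      · rw [mem_filter]
        rintro ⟨-, h'⟩
        rw [ori_right] at h'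
        exact lt_irrefl _ h'
    · intro y hy
      rw [mem_filter] at hy ⊢
      exact ⟨hy.1, ori_trans (hcone q hq q' hq') (hcone y hy.1 q' hq') h hy.2⟩
  have hpq : p ≠ q := by
    rintro rfl
    exact disjoint_left.mp (hB.disj i j hne) hp hq
  have hpq' : p ≠ q' := by
    rintro rfl
    exact disjoint_left.mp (hB.disj i j hne) hp hq'
  rcases lt_or_gt_of_ne (ori_ne hP (hB.sub i hp) (hB.sub j hq) (hB.sub j hq') hpq hpq' hqq)
    with h | h
  · have := key q q' hq hq' h
    omega
  · have h' : ori p q' q < 0 := by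
      rw [ori_rot p q q']
      linarith
    have := key q' q hq' hq h'
    omega

end Pool.Agent.Helper889_Blow
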