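import Pool.Agent.Helper889_Blow.Even

/-! Two-level sets. -/

set_option autoImplicit false

namespace Pool.Agent.Helper889_Blow

open Finset KLev.Halving Pool.Agent.Helper889_Halv

theorem hier_single (Q : Finset (ℝ × ℝ)) (hQ : GeneralPosition Q) : Hier [Q.card] Q := by
  refine ⟨fun i => {((Q.equivFin.symm i : Q) : ℝ × ℝ)}, ?_, fun i => card_singleton _⟩
  have hm : ∀ i, ((Q.equivFin.symm i : Q) : ℝ × ℝ) ∈ Q := fun i => (Q.equivFin.symm i).2
  have hne : ∀ i j, i ≠ j → ((Q.equivFin.symm i : Q) : ℝ × ℝ) ≠ (Q.equivFin.symm j : Q) :=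
    fun i j hij h => hij (Q.equivFin.symm.injective (Subtype.ext h))
  refine ⟨fun i => by simp, fun i j hij => ?_, fun p => ?_, ?_, ?_⟩
  · rw [disjoint_singleton]
    exact hne i j hij
  · constructor
    · intro hp
      exact ⟨Q.equivFin ⟨p, hp⟩, by simp⟩
    · rintro ⟨i, hi⟩
      rw [mem_singleton] at hi
      rw [hi]
      exact hm i
  · intro i j l hij hil hjl x hx x' hx' y hy y' hy' z hz z' hz'
    rw [mem_singleton] at hx hx' hy hy' hz hz'
    subst hx hx' hy hy' hz hz'
    exact mul_self_pos.mpr (ori_ne hQ (hm i) (hm j) (hm l) (hne i j hij) (hne i l hil)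
      (hne j l hjl))
  · intro i j _ x hx x' hx' hxx
    rw [mem_singleton] at hx hx'
    exact absurd (hx.trans hx'.symm) hxx

/-- two-level sets -/
theorem two_level {N t : ℕ} {C : Fin N → Finset (ℝ × ℝ)} {P : Finset (ℝ × ℝ)}
    (hP : GeneralPosition P) (hB : IsBlowup C t P) :
    (({L | IsBisector P L}.ncard : ℕ) : ℝ) ≤
      29 * P.card * ((N : ℝ) ^ (1 / 3 : ℝ) + (t : ℝ) ^ (1 / 3 : ℝ)) := by
  have h : Hier [N, t] P := by
    refine ⟨C, ?_, fun i => ?_⟩
    · simpa using hB
    · have := hier_single (C i) (gp_mono' hP (hB.sub i))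
      rwa [hB.card i] at this
  have := hier_bound [N, t] P hP h
  simpa using this

end Pool.Agent.Helper889_Blow
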